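import Pool.Agent.H34.CGS.Stmts

/-!
# Board `cgs`, row FIN: the conclusion
-/

set_option autoImplicit false

noncomputable section

namespace Pool.CGS

open Pool.CGR

namespace FIN2

theorem exists_pos_le {m : ℕ} (f : Fin m → ℝ) (hf : ∀ i, 0 < f i) :
    ∃ s₀ : ℝ, 0 < s₀ ∧ ∀ i, s₀ ≤ f i := by
  rcases isEmpty_or_nonempty (Fin m) with h | h
  · exact ⟨1, one_pos, fun i => (h.false i).elim⟩
  · obtain ⟨i0, h0⟩ := Finite.exists_min f
    exact ⟨f i0, hf i0, h0⟩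

theorem sa_sh {m : ℕ} {A : Type} [CStarAlgebra A] {x S : Fin m → A}
    (hx : ∀ i, IsSelfAdjoint (x i)) (hS : ∀ i, IsSelfAdjoint (S i)) (s : ℝ) (i : Fin m) :
    IsSelfAdjoint (sh x S (s : ℂ) i) := by
  unfold sh
  refine (hx i).add ?_
  rw [isSelfAdjoint_iff, star_smul, (hS i).star_eq]
  simp

/-- the derivative as a linear map -/
def dl {α A : Type} [DecidableEq α] [Ring A] [Algebra ℂ A] (τ : A →ₗ[ℂ] ℂ) (x : α → A) (i : α) :
    (List α →₀ ℂ) →ₗ[ℂ] ℂ := Finsupp.linearCombination ℂ (fun w => dq (fun w => τ (ev x w)) i w)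

theorem dl_eq {α A : Type} [DecidableEq α] [Ring A] [Algebra ℂ A] (τ : A →ₗ[ℂ] ℂ) (x : α → A)
    (i : α) (P : List α →₀ ℂ) : dl τ x i P = dp τ x i P := rfl

end FIN2

open FIN2 in
/-- **FIN** -/
theorem fin_thm (hKEY : KEYStmt) (hQEX : QEXStmt) (hRZX : RZXStmt) (hPCT : PCTStmt)
    (hTWO : TWOStmt) (hPAL : PALStmt) : FINStmt := by
  intro m A _ τ hτ x S hx hS hSemi hConj hY ε hε
  obtain ⟨C, hC⟩ := hConj
  have hδ : 0 < ε / 5 := by linarith
  set δ : ℝ := ε / 5 with hδe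
  have hR := fun i => hRZX m A τ hτ x hx (dl τ x i) C (fun P => hC i P) δ hδ
  choose R hR using hR
  have hs := fun i => hPCT m A x S (R i) δ hδ
  choose f hf0 hf using hs
  obtain ⟨s₀, hs₀, hs₁⟩ := exists_pos_le f hf0
  obtain ⟨s, hs, hss, hYs⟩ := hY s₀ hs₀
  obtain ⟨H, hH⟩ := hYs δ hδ
  obtain ⟨Q, hQ⟩ := hQEX m A τ hτ x S hSemi (s : ℂ) H
  refine ⟨Q, ?_⟩
  intro i P
  obtain ⟨t1, t2, t3, t4, t5⟩ := hTWO A τ hτ
  obtain ⟨p1, -, -, -, p5, p6⟩ := hPAL (Fin m) A τ (sh x S (s : ℂ))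
  have hsh : ∀ i, IsSelfAdjoint (sh x S (s : ℂ) i) := sa_sh hx hS s
  have hK := hKEY m A τ hτ x S hx hSemi i (R i) δ hδ.le (fun P => hR i P) (s : ℂ)
  have hcl : ‖pe (sh x S (s : ℂ)) (R i) - pe x (R i)‖ ≤ δ :=
    hf i s (by rw [abs_of_pos hs]; exact hss.trans_le (hs₁ i))
  set y := sh x S (s : ℂ) with hy
  set T : A := cp y i H with hT
  set Z : A := T - pe y (R i) with hZ
  have hn0 : ∀ a, 0 ≤ n2 τ a := fun a => (t3 a).1
  have hD : n2 τ (pe y (R i) - pe x (R i)) ≤ δ := (t3 _).2.1.trans hcl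
  have hD' : n2 τ (pe x (R i) - pe y (R i)) ≤ δ := by
    have := (t3 (pe y (R i) - pe x (R i))).2.2.2
    rw [neg_sub] at this
    rw [this]
    exact hD
  have hZP : ∀ P : List (Fin m) →₀ ℂ, ‖τ (Z * pe y P)‖ ≤ 3 * δ * n2 τ (pe y P) := by
    intro P
    have e1 := hH i P
    have e2 := hK P
    have e3 : ‖τ ((pe x (R i) - pe y (R i)) * pe y P)‖ ≤ δ * n2 τ (pe y P) :=
      (t1 _ _).trans (mul_le_mul_of_nonneg_right hD' (hn0 _))
    have e4 : τ (Z * pe y P) = -(dp τ y i P - τ (T * pe y P)) +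
        (dp τ y i P - τ (pe x (R i) * pe y P)) + τ ((pe x (R i) - pe y (R i)) * pe y P) := by
      rw [hZ, sub_mul, sub_mul, map_sub, map_sub]
      ring
    rw [e4]
    refine (norm_add_le _ _).trans ?_
    have e5 := norm_add_le (-(dp τ y i P - τ (T * pe y P))) (dp τ y i P - τ (pe x (R i) * pe y P))
    rw [norm_neg] at e5
    linarith
  obtain ⟨R1, hR1⟩ := p5 i H
  obtain ⟨P0, hP0⟩ := p6 hsh (R1 - R i)
  have hP0' : pe y P0 = star Z := by
    rw [hP0, (p1 R1 (R i)).2, hR1]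
  have hZ3 : n2 τ Z ≤ 3 * δ := by
    have e1 := hZP P0
    rw [hP0', t4 Z, (t3 Z).2.2.1, Complex.norm_real, Real.norm_eq_abs,
      abs_of_nonneg (sq_nonneg _)] at e1
    rcases (hn0 Z).eq_or_lt with h | h
    · rw [← h]
      linarith
    · have e2 : n2 τ Z * n2 τ Z ≤ 3 * δ * n2 τ Z := by
        calc n2 τ Z * n2 τ Z = n2 τ Z ^ 2 := by ring
          _ ≤ _ := e1
      exact le_of_mul_le_mul_right e2 h
  have hT4 : n2 τ (pe x (R i) - T) ≤ 4 * δ := by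
    have e1 : T - pe x (R i) = Z + (pe y (R i) - pe x (R i)) := by rw [hZ]; abel
    have e2 := (t3 (T - pe x (R i))).2.2.2
    rw [neg_sub] at e2
    rw [e2, e1]
    refine (t2 _ _).trans ?_
    linarith
  have hfin : ‖dp τ x i P - τ (T * pe x P)‖ ≤ ε * n2 τ (pe x P) := by
    have e1 := hR i P
    rw [dl_eq] at e1
    have e2 : ‖τ ((pe x (R i) - T) * pe x P)‖ ≤ 4 * δ * n2 τ (pe x P) :=
      (t1 _ _).trans (mul_le_mul_of_nonneg_right hT4 (hn0 _))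
    have e3 : dp τ x i P - τ (T * pe x P) = (dp τ x i P - τ (pe x (R i) * pe x P)) +
        τ ((pe x (R i) - T) * pe x P) := by
      rw [sub_mul, map_sub]
      ring
    rw [e3]
    refine (norm_add_le _ _).trans ?_
    have e4 : ε * n2 τ (pe x P) = 5 * δ * n2 τ (pe x P) := by rw [hδe]; ring
    rw [e4]
    linarith
  rw [← hQ i P]
  exact hfin

end Pool.CGS
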