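import Pool.Agent.H34.CGS.Stmts

/-!
# Board `cgs`, row MXQ: the expansion of the words in `x + s S`
-/

set_option autoImplicit false

noncomputable section

namespace Pool.CGS

open Pool.CGR

namespace MXQ2

theorem pe_eq {α A : Type} [Ring A] [Algebra ℂ A] (x : α → A) (P : List α →₀ ℂ) :
    pe x P = Finsupp.linearCombination ℂ (ev x) P := rfl

theorem dp_eq {α A : Type} [DecidableEq α] [Ring A] [Algebra ℂ A] (τ : A →ₗ[ℂ] ℂ) (x : α → A) (i : α)
    (P : List α →₀ ℂ) : dp τ x i P =
      Finsupp.linearCombination ℂ (fun w => dq (fun w => τ (ev x w)) i w) P := rfl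

theorem mixp_eq {m : ℕ} (s : ℂ) (P : List (Fin m) →₀ ℂ) :
    mixp s P = Finsupp.linearCombination ℂ (mix s) P := rfl

theorem left_sh {m : ℕ} {A : Type} [Ring A] [Algebra ℂ A] (x S : Fin m → A) (s : ℂ) :
    (fun j => (LinearMap.mulLeft ℂ (sh x S s j) : Module.End ℂ A)) =
      sh (fun j => (LinearMap.mulLeft ℂ (x j) : Module.End ℂ A))
        (fun j => (LinearMap.mulLeft ℂ (S j) : Module.End ℂ A)) s := by
  funext j
  ext a
  simp [sh, add_mul]

theorem left_elim {m : ℕ} {A : Type} [Ring A] [Algebra ℂ A] (x S : Fin m → A) :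
    Sum.elim (fun j => (LinearMap.mulLeft ℂ (x j) : Module.End ℂ A))
        (fun j => (LinearMap.mulLeft ℂ (S j) : Module.End ℂ A)) =
      fun j => (LinearMap.mulLeft ℂ (Sum.elim x S j) : Module.End ℂ A) := by
  funext j
  rcases j with j | j <;> rfl

theorem app_sum {α A : Type} [Ring A] [Algebra ℂ A] (τ : A →ₗ[ℂ] ℂ) (P : List α →₀ ℂ)
    (f : List α → Module.End ℂ A) :
    τ ((P.sum fun W r => r • f W) 1) = Finsupp.linearCombination ℂ (fun W => τ (f W 1)) P := by
  rw [Finsupp.linearCombination_apply, Finsupp.sum, Finsupp.sum, LinearMap.sum_apply, map_sum]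
  refine Finset.sum_congr rfl fun W _ => ?_
  rw [LinearMap.smul_apply, map_smul]

end MXQ2

open MXQ2 in
/-- **MXQ** -/
theorem mxq_thm (h1 : MXDStmt) (h2 : DVEStmt) : MXQStmt := by
  intro m A _ _ τ x S s P
  refine ⟨?_, ?_, ?_⟩
  · rw [pe_eq, pe_eq, mixp_eq, Finsupp.linearCombination_linearCombination]
    congr 2
    funext w
    exact (h1 m A x S s w).1
  · intro i
    rw [dp_eq, dp_eq, mixp_eq, Finsupp.linearCombination_linearCombination]
    congr 2
    funext w
    rw [h2 (Fin m) A τ (sh x S s) i w, left_sh, (h1 m (Module.End ℂ A) _ _ s w).2.1 i (ee τ),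
      left_elim, app_sum]
    congr 2
    funext W
    exact (h2 (Fin m ⊕ Fin m) A τ (Sum.elim x S) (Sum.inl i) W).symm
  · intro i
    rw [dp_eq, dp_eq, mixp_eq, Finsupp.linearCombination_linearCombination,
      Finsupp.linearCombination_apply, Finsupp.linearCombination_apply, Finsupp.sum, Finsupp.sum,
      Finset.mul_sum]
    refine Finset.sum_congr rfl fun w _ => ?_
    have h3 : s * dq (fun w => τ (ev (sh x S s) w)) i w =
        Finsupp.linearCombination ℂ (fun W => dq (fun W => τ (ev (Sum.elim x S) W)) (Sum.inr i) W)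
          (mix s w) := by
      have h4 := congrArg (fun T : Module.End ℂ A => τ (T 1))
        ((h1 m (Module.End ℂ A) (fun j => (LinearMap.mulLeft ℂ (x j) : Module.End ℂ A))
          (fun j => (LinearMap.mulLeft ℂ (S j) : Module.End ℂ A)) s w).2.2 i (ee τ))
      rw [app_sum, ← left_sh, left_elim, LinearMap.smul_apply, map_smul, smul_eq_mul,
        ← h2 (Fin m) A τ (sh x S s) i w] at h4
      rw [h4]
      congr 2
      funext W
      exact (h2 (Fin m ⊕ Fin m) A τ (Sum.elim x S) (Sum.inr i) W).symm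
    rw [← h3, smul_eq_mul, smul_eq_mul]
    ring

end Pool.CGS
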